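import Pool.Agent.W424.KI.Stm

/-! Project KI (helper424, MP_6bd702_pr): restriction of the three arm event. -/

set_option autoImplicit false

namespace Pool.Agent.W15.KI

open H974 H906.Cyl
open Pool.Agent.H160R2.ML (nm)
open Pool.Agent.W801.OU
open Pool.Agent.W424.KI

namespace TDEC

theorem eqv_iff {α : Type*} {E : α → α → Prop} (P : α → Prop)
    (h : ∀ a b, E a b → (P a ↔ P b)) {a b : α} (hab : Relation.EqvGen E a b) : P a ↔ P b := by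
  induction hab with
  | rel a b h1 => exact h a b h1
  | refl a => exact Iff.rfl
  | symm a b _ ih => exact ih.symm
  | trans a b c _ _ ih1 ih2 => exact ih1.trans ih2

theorem eqv_mono {α : Type*} {E E' : α → α → Prop} (h : ∀ a b, E a b → E' a b) {a b : α}
    (hab : Relation.EqvGen E a b) : Relation.EqvGen E' a b := by
  induction hab with
  | rel a b h1 => exact Relation.EqvGen.rel _ _ (h a b h1)
  | refl a => exact Relation.EqvGen.refl _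
  | symm a b _ ih => exact Relation.EqvGen.symm _ _ ih
  | trans a b c _ _ ih1 ih2 => exact Relation.EqvGen.trans _ _ _ ih1 ih2

theorem rz_mono {Z : Set ℤ} {B B' G : Set Edg} (h : B ⊆ B') {x y : ℤ × ℤ} (hr : RZ Z B G x y) :
    RZ Z B' G x y :=
  eqv_mono (fun _ _ ⟨e, h1, h2⟩ => ⟨e, h h1, h2⟩) hr

theorem bxz_mono {R R' : ℤ} (h : R ≤ R') : bxz R ⊆ bxz R' :=
  fun _ he => ⟨he.1.trans h, he.2.trans h⟩

theorem se3_mono {R R' : ℤ} (hR : R ≤ R') {G : Set Edg} (h : SE3 R' G) : SE3 R G := by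
  refine ⟨fun c d hc hd hcd hr => h.1 c d hc hd hcd (rz_mono (bxz_mono hR) hr), fun c hc => ?_⟩
  obtain ⟨x, hx, e, he, hxe⟩ := h.2 c hc
  by_contra hA
  have hA' : ∀ y : ℤ × ℤ, RZ {0} (bxz R) G (scz 0 0 c) y → ∀ e : Edg, e ∉ bxz R →
      ¬ (Cor {0} 0 e y ∨ Cor {0} 1 e y) := fun y hy e he h1 => hA ⟨y, hy, e, he, h1⟩
  have key : ∀ a b : ℤ × ℤ, LZ {0} (bxz R') G a b → (RZ {0} (bxz R) G (scz 0 0 c) a ↔
      RZ {0} (bxz R) G (scz 0 0 c) b) := by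
    rintro a b ⟨g, hg1, hg2, hg3⟩
    by_cases hgR : g ∈ bxz R
    · have hl : RZ {0} (bxz R) G a b := Relation.EqvGen.rel _ _ ⟨g, hgR, hg2, hg3⟩
      exact ⟨fun h1 => Relation.EqvGen.trans _ _ _ h1 hl,
        fun h1 => Relation.EqvGen.trans _ _ _ h1 (Relation.EqvGen.symm _ _ hl)⟩
    · have hca : Cor {0} 0 g a ∨ Cor {0} 1 g a := by
        rcases hg3 with ⟨-, h1⟩ | ⟨-, h1⟩
        · exact Or.inl ⟨hg2, b, Or.inl h1⟩
        · exact Or.inr ⟨hg2, b, Or.inl h1⟩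
      have hcb : Cor {0} 0 g b ∨ Cor {0} 1 g b := by
        rcases hg3 with ⟨-, h1⟩ | ⟨-, h1⟩
        · exact Or.inl ⟨hg2, a, Or.inr h1⟩
        · exact Or.inr ⟨hg2, a, Or.inr h1⟩
      exact ⟨fun h1 => absurd hca (hA' a h1 g hgR), fun h1 => absurd hcb (hA' b h1 g hgR)⟩
  have h1 := (eqv_iff _ key hx).1 (Relation.EqvGen.refl _)
  exact hA' x h1 e (fun h2 => he (bxz_mono hR h2)) hxe

theorem lz_congr {Z : Set ℤ} {B G G' : Set Edg} (h : ∀ e ∈ B, (e ∈ G ↔ e ∈ G')) {x y : ℤ × ℤ}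
    (hl : LZ Z B G x y) : LZ Z B G' x y := by
  obtain ⟨e, h1, h2, h3⟩ := hl
  refine ⟨e, h1, h2, ?_⟩
  have := h e h1
  tauto

theorem rz_congr {Z : Set ℤ} {B G G' : Set Edg} (h : ∀ e ∈ B, (e ∈ G ↔ e ∈ G')) {x y : ℤ × ℤ} :
    RZ Z B G x y ↔ RZ Z B G' x y :=
  ⟨eqv_mono fun _ _ => lz_congr h, eqv_mono fun _ _ => lz_congr fun e he => (h e he).symm⟩

theorem se3_congr {R : ℤ} {G G' : Set Edg} (h : ∀ e ∈ bxz R, (e ∈ G ↔ e ∈ G')) (hG : SE3 R G) :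
    SE3 R G' := by
  have h2 : ∀ x y : ℤ × ℤ, RZ {0} (bxz R) G x y ↔ RZ {0} (bxz R) G' x y :=
    fun x y => rz_congr h
  unfold SE3 at hG ⊢
  simpa only [h2] using hG

end TDEC

theorem t_DEC : S_DEC := by
  intro d D R H G _ hdR _ h1 h2 h3
  refine ⟨?_, H, h2, h3⟩
  have h4 : SE3 (d : ℤ) H := TDEC.se3_mono (by exact_mod_cast hdR) h3
  exact TDEC.se3_congr h1 h4

end Pool.Agent.W15.KI
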